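import Pool.Agent.MP_187b32_an.Spec.Bg

/-! Background module MC1: profile data, the explicit background, uniform symbol classes. -/

set_option autoImplicit false

open Pool.Agent.Boltz Finset
open scoped ContDiff

noncomputable section

namespace Pool.Agent.MP_187b32_an

/-- The data and properties of the profile (the content of `M1Stmt`). -/
structure Prof where
  r : ℝ
  lam : ℝ
  c0 : ℝ
  U : Fin 3 → E3 → ℝ
  C : E3 → ℝ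
  K : ℕ → ℝ
  r_gt : 11 / 10 < r
  r_lt : r < 9 / 8
  lam_pos : 0 < lam
  c0_pos : 0 < c0
  cd_U : ∀ i, ContDiff ℝ ∞ (U i)
  cd_C : ContDiff ℝ ∞ C
  eqU : ∀ y j, (r - 1) * U j y + ∑ i, (y i + U i y) * dX i (U j) y + 5 * C y * dX j C y = 0
  eqC : ∀ y, (r - 1) * C y + ∑ i, (y i + U i y) * dX i C y + 1 / 3 * C y * ∑ i, dX i (U i) y = 0
  bdU : ∀ (w : List (Fin 3)) j y,
    |dXw w (U j) y| ≤ K w.length * (1 + ‖y‖ ^ 2) ^ ((1 - r - w.length) / 2)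
  bdC : ∀ (w : List (Fin 3)) y,
    |dXw w C y| ≤ K w.length * (1 + ‖y‖ ^ 2) ^ ((1 - r - w.length) / 2)
  low : ∀ y, c0 * (1 + ‖y‖ ^ 2) ^ ((1 - r) / 2) ≤ C y
  rep : ∀ (y : E3) (ξ : Fin 3 → ℝ), lam * ∑ i, ξ i ^ 2 ≤
    (1 - 9 / 4 * √(∑ i, dX i C y ^ 2)) * ∑ i, ξ i ^ 2 + ∑ p, ∑ i, ξ p * ξ i * dX p (U i) y

theorem M1Stmt.prof (h : M1Stmt) : Nonempty Prof := by
  obtain ⟨r, lam, c0, U, C, K, h1, h2, h3, h4, h5, h6, h7, h8, h9, h10, h11, h12⟩ := h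
  exact ⟨⟨r, lam, c0, U, C, K, h1, h2, h3, h4, h5, h6, h7, h8, h9, h10, h11, h12⟩⟩

/-- The cut-off rescaled copy `chi(x) exp(c s) Φ(exp(s) pi(x))` of a function of `y`. -/
def Cut.resc (cut : Cut) (c : ℝ) (Φ : E3 → ℝ) (s : ℝ) (x : E3) : ℝ :=
  cut.chi x * (Real.exp (c * s) * Φ (Real.exp s • cut.pi x))

/-- The explicit background. -/
def mkBg (P : Prof) (cut : Cut) (nu : ℝ) : BgD where
  r := P.r
  nu := nu
  cut := cut
  u i := cut.resc (P.r - 1) (P.U i)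
  C s x := cut.resc (P.r - 1) P.C s x + (1 - cut.chi x)

/-- Everything in `BgD.Ok` except `hyp`, with explicit constants; the symbol bounds are at the scale
`Lam` (so that `K` and `c0` do not depend on `nu`). -/
structure BgD.Pre (B : BgD) (K : ℕ → ℝ) (c0 : ℝ) (U : Fin 3 → E3 → ℝ) (C : E3 → ℝ) : Prop where
  r_gt : 11 / 10 < B.r
  r_lt : B.r < 9 / 8
  nu_pos : 0 < B.nu
  nu_le : B.nu ≤ 1
  cd_u : ∀ i, ContDiff ℝ ∞ fun p : ℝ × E3 => B.u i p.1 p.2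
  cd_C : ContDiff ℝ ∞ fun p : ℝ × E3 => B.C p.1 p.2
  per_u : ∀ i s, Per (B.u i s)
  per_C : ∀ s, Per (B.C s)
  C_pos : ∀ s x, 0 < B.C s x
  K_pos : ∀ n, 0 < K n
  c0_pos : 0 < c0
  C_ge : ∀ s, 0 ≤ s → ∀ x, c0 * B.Lam s x ^ (1 - B.r) ≤ B.C s x
  sym : ∀ s, 0 ≤ s →
    (∀ i, SymBd K 0 (B.Lam s) (fun x => B.Lam s x ^ (1 - B.r)) (B.u i s)) ∧
    SymBd K 0 (B.Lam s) (fun x => B.Lam s x ^ (1 - B.r)) (B.C s) ∧
    (∀ i, SymBd K 0 (B.Lam s) (fun x => B.mu s x * B.Lam s x ^ (1 - B.r)) (dS (B.u i) s)) ∧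
    SymBd K 0 (B.Lam s) (fun x => B.mu s x * B.Lam s x ^ (1 - B.r)) (dS B.C s)
  euler_u : ∀ j s x, box (1 / 10) x →
    B.mat (B.u j) s x + 5 * (Real.exp (-B.r * s) * B.C s x) * dX j (B.C s) x = 0
  euler_C : ∀ s x, box (1 / 10) x →
    B.mat B.C s x + 1 / 3 * B.C s x * ∑ i, Real.exp (-B.r * s) * dX i (B.u i s) x = 0
  cd_U' : ∀ i, ContDiff ℝ ∞ (U i)
  cd_C' : ContDiff ℝ ∞ C
  scal : ∀ s x, box (1 / 8) x →
    (∀ i, B.u i s x = Real.exp ((B.r - 1) * s) * U i (Real.exp s • x)) ∧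
      B.C s x = Real.exp ((B.r - 1) * s) * C (Real.exp s • x)

/-- The field `hyp` of `BgD.Ok`. -/
def BgD.Hyp (B : BgD) : Prop :=
  ∃ (K : ℕ → ℝ) (lam s1 : ℝ), 0 < lam ∧ 0 ≤ s1 ∧ ∀ s, s1 ≤ s →
    (B.fld s).Bd K (B.sig s) (B.mu s) ∧ SymBd K 0 (B.sig s) (B.k1 s) (B.k1 s) ∧
    ∀ a, 0 ≤ a → a ≤ 1 / 4 → WtBd (B.fld s) K lam (B.om a s) (B.sig s) (B.mu s)
      (dS (B.om a) s) (dS B.sig s) fun x => 2 * a * B.om a s x

/-- Output of MC1a, first half. -/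
def PreStmt : Prop :=
  ∀ P : Prof, ∃ (cut : Cut) (K : ℕ → ℝ) (c0 : ℝ), ∀ nu, 0 < nu → nu ≤ 1 →
    (mkBg P cut nu).Pre K c0 P.U P.C

/-- Jointly smooth scalar fields. -/
def CD (a : ℝ → E3 → ℝ) : Prop := ContDiff ℝ ∞ fun p : ℝ × E3 => a p.1 p.2

/-- Uniform symbol class: on the set `P` of parameters and points, `a` has size `m` at the length
scale `σ`. -/
structure Sy {T : Type*} (P : T → E3 → Prop) (σ m a : T → E3 → ℝ) : Prop where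
  cd : ∀ t, ContDiff ℝ ∞ (a t)
  pos : ∀ t x, P t x → 0 < σ t x
  bd : ∀ w : List (Fin 3), ∃ K : ℝ, 0 < K ∧
    ∀ t x, P t x → σ t x ^ w.length * |dXw w (a t) x| ≤ K * m t x

/-- The set `s ≥ 0`. -/
def Pos (s : ℝ) (_ : E3) : Prop := 0 ≤ s

/-- The open box of half side `1/4`. -/
def inn (x : E3) : Prop := ∀ i, |x i| < 1 / 4

/-- The weight `(1 + |y|^2)^(1/2)`. -/
def jb (y : E3) : ℝ := √(1 + ‖y‖ ^ 2)

/-- Classical symbols of order `β` on the whole space. -/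
def PS (β : ℝ) (Φ : E3 → ℝ) : Prop :=
  Sy (fun (_ : Unit) _ => True) (fun _ => jb) (fun _ y => jb y ^ β) fun _ => Φ

end Pool.Agent.MP_187b32_an
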