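import Pool.Agent.MP_187b32_an.Bg.HypBd

/-! The field `hyp`: growth of the weight and repulsivity, for small `nu` and large `s`. -/

set_option autoImplicit false

open Pool.Agent.Boltz Finset Filter

namespace Pool.Agent.MP_187b32_an.Hyp

theorem sqrt_sum_le {a : Fin 3 → ℝ} {M : ℝ} (h : ∀ i, |a i| ≤ M) : √(∑ i, a i ^ 2) ≤ 2 * M := by
  have h0 : 0 ≤ M := (abs_nonneg _).trans (h 0)
  have h1 : ∀ i, a i ^ 2 ≤ M ^ 2 := fun i => sq_le_sq' (abs_le.1 (h i)).1 (abs_le.1 (h i)).2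
  refine Real.sqrt_le_iff.2 ⟨by positivity, ?_⟩
  rw [Fin.sum_univ_three]
  nlinarith [h1 0, h1 1, h1 2, sq_nonneg M]

theorem quad_ge {D : Fin 3 → Fin 3 → ℝ} {M : ℝ} (h : ∀ p i, |D p i| ≤ M) (ξ : Fin 3 → ℝ) :
    -(3 * M * ∑ i, ξ i ^ 2) ≤ ∑ p, ∑ i, ξ p * ξ i * D p i := by
  have t : ∀ p i, -(M * (ξ p ^ 2 + ξ i ^ 2) / 2) ≤ ξ p * ξ i * D p i := fun p i => by
    obtain ⟨a, b⟩ := abs_le.1 (h p i)
    nlinarith [mul_nonneg (sub_nonneg.2 a) (sq_nonneg (ξ p + ξ i)),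
      mul_nonneg (sub_nonneg.2 b) (sq_nonneg (ξ p - ξ i))]
  simp only [Fin.sum_univ_three]
  linarith [t 0 0, t 0 1, t 0 2, t 1 0, t 1 1, t 1 2, t 2 0, t 2 1, t 2 2]

theorem sum_mul_le {a b : Fin 3 → ℝ} {M N : ℝ} (ha : ∀ i, |a i| ≤ M) (hb : ∀ i, |b i| ≤ N) :
    ∑ i, a i * b i ≤ 3 * (M * N) := by
  have t : ∀ i, a i * b i ≤ M * N := fun i => (le_abs_self _).trans (by
    rw [abs_mul]
    exact mul_le_mul (ha i) (hb i) (abs_nonneg _) ((abs_nonneg _).trans (ha i)))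
  rw [Fin.sum_univ_three]
  linarith [t 0, t 1, t 2]

variable {B : BgD} {K : ℕ → ℝ} {c0 : ℝ} {U : Fin 3 → E3 → ℝ} {C : E3 → ℝ}

theorem dX_cmul {a : E3 → ℝ} (ha : Dif a) (c : ℝ) (i : Fin 3) (x : E3) :
    dX i (fun y => c * a y) x = c * dX i a x := congrFun (dX_const_smul ha c i) x

/-- Size of a coefficient and of its gradient. -/
theorem coef_le {a : E3 → ℝ} {s : ℝ} (ha : Dif a)
    (h : SymBd K 0 (B.Lam s) (fun x => B.Lam s x ^ (1 - B.r)) a) (x : E3) :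
    |Real.exp (-B.r * s) * a x| ≤ K 0 * (B.mu s x * B.Lam s x) ∧
      ∀ i, |dX i (fun y => Real.exp (-B.r * s) * a y) x| ≤ K 1 * B.mu s x := by
  have he := Real.exp_pos (-B.r * s)
  have hΛ := lam_pos B s x
  refine ⟨?_, fun i => ?_⟩
  · have := h [] le_rfl x
    simp only [List.length_nil, pow_zero, one_mul, dXw_nil] at this
    rw [abs_mul, abs_of_pos he, ← mu_lam, mul_left_comm]
    exact mul_le_mul_of_nonneg_left this he.le
  · have := h [i] (Nat.zero_le _) x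
    simp only [List.length_singleton, pow_one, dXw_cons, dXw_nil] at this
    rw [dX_cmul ha, abs_mul, abs_of_pos he]
    refine le_of_mul_le_mul_right ?_ hΛ
    rw [mul_assoc (K 1), ← mu_lam, mul_left_comm, mul_assoc, mul_comm _ (B.Lam s x)]
    exact mul_le_mul_of_nonneg_left this he.le

section grad

variable {Kr : ℝ} (hK0 : 0 < Kr) (hK : ∀ i x, |dX i B.cut.rho2 x| ≤ Kr * √(B.cut.rho2 x))
include hK0 hK

theorem d_om (h : B.Pre K c0 U C) {s a : ℝ} (hs : 0 ≤ s) (ha : 0 ≤ a) (ha' : a ≤ 1 / 4) (x : E3) :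
    dS (B.om a) s x + ∑ i, dX i (fun y => (B.fld s).u i y * B.om a s y) x + 2 * a * B.om a s x
      ≤ (4 + 3 * (K 1 + 2 * Kr * K 0)) * B.mu s x * B.om a s x := by
  have hω := om_pos B a s x
  have hμ := mu_pos B s x
  have hΛ := lam_pos B s x
  have hp : |-3 - 2 * a| ≤ 4 := abs_le.2 ⟨by linarith, by linarith⟩
  have hs1 := (slow_pow hK0 hK h.nu_pos h.nu_le (Real.exp_pos (-2 * a * s)) hp le_rfl s).sm
  have t : ∀ i, dX i (fun y => (B.fld s).u i y * B.om a s y) x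
      ≤ (K 1 + 2 * Kr * K 0) * B.mu s x * B.om a s x := by
    intro i
    have hu := sm_slice (h.cd_u i) s
    obtain ⟨a1, a2⟩ := coef_le hu.dif ((h.sym s hs).1 i) x
    have a3 : B.Lam s x * |dX i (B.om a s) x| ≤ 2 * Kr * B.om a s x :=
      abs_dX_pow hK0 hK (Real.exp_pos (-2 * a * s)) hp s i x
    have e : dX i (fun y => (B.fld s).u i y * B.om a s y) x =
        dX i (fun y => Real.exp (-B.r * s) * B.u i s y) x * B.om a s x
          + Real.exp (-B.r * s) * B.u i s x * dX i (B.om a s) x :=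
      congrFun (dX_mul ((Sm.const _).mul hu).dif hs1.dif i) x
    have a4 := mul_le_mul_of_nonneg_right ((le_abs_self _).trans (a2 i)) hω.le
    have a5 := le_abs_self (Real.exp (-B.r * s) * B.u i s x * dX i (B.om a s) x)
    rw [abs_mul] at a5
    have a6 := mul_le_mul_of_nonneg_right a1 (abs_nonneg (dX i (B.om a s) x))
    have a7 := mul_le_mul_of_nonneg_left a3 (mul_pos (h.K_pos 0) hμ).le
    rw [e]
    linarith
  have a1 := mul_le_mul_of_nonneg_left (sq_le_mu (B := B) (by linarith [h.r_lt]) s x)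
    (by positivity : 0 ≤ (3 + 2 * a) * B.om a s x)
  have a2 := mul_le_mul_of_nonneg_right ha' (mul_pos hω hμ).le
  have a3 := mul_pos hω hμ
  rw [dS_om, Fin.sum_univ_three]
  linarith [t 0, t 1, t 2]

/-- The terms with a derivative of the length scale are small. -/
theorem small_terms (h : B.Pre K c0 U C) {s : ℝ} (hs : 0 ≤ s) (x : E3) :
    ∑ i, (B.fld s).u i x * dX i (B.sig s) x
      + 9 / 4 * |(B.fld s).c x| * √(∑ i, dX i (B.sig s) x ^ 2)
      ≤ 8 * K 0 * Kr * B.nu * (Real.exp (-s) / SS B s x * B.sig s x) := by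
  have hΛ := lam_pos B s x
  have hS := ss_pos B s x
  have hl := Real.exp_pos (-s)
  have k0 := h.K_pos 0
  have hν := h.nu_pos
  have b0 : K 0 * (B.mu s x * B.Lam s x) ≤ K 0 * Real.exp (-s) :=
    mul_le_mul_of_nonneg_left ((le_div_iff₀ hΛ).1 (mu_le (by linarith [h.r_gt]) s x)) k0.le
  have b1 := fun i => (abs_dX_sig hK0 hK h.nu_pos h.nu_le s i x).1
  have b2 := sum_mul_le (a := fun i => (B.fld s).u i x) (fun i =>
    (coef_le (sm_slice (h.cd_u i) s).dif ((h.sym s hs).1 i) x).1.trans b0) b1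
  have b3 : |(B.fld s).c x| ≤ K 0 * Real.exp (-s) :=
    (coef_le (sm_slice h.cd_C s).dif (h.sym s hs).2.1 x).1.trans b0
  have b4 := mul_le_mul b3 (sqrt_sum_le b1) (Real.sqrt_nonneg _) (by positivity)
  have b5 : Real.exp (-s) ≤ Real.exp (-s) / SS B s x * B.sig s x := by
    rw [div_mul_eq_mul_div, le_div_iff₀ hS, sig_eq]
    nlinarith
  have b6 := mul_le_mul_of_nonneg_left b5 (by positivity : 0 ≤ 8 * K 0 * Kr * B.nu)
  have b7 : 0 ≤ K 0 * Kr * B.nu * Real.exp (-s) := by positivity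
  linarith

end grad

/-- Near the lattice the gradients are those of the profile. -/
theorem near_eq (h : B.Pre K c0 U C) (s : ℝ) {x : E3} (hx : B.cut.rho2 x ≤ 1 / 1200) : ∃ y : E3,
    (∀ p i, dX p ((B.fld s).u i) x = dX p (U i) y) ∧ ∀ p, dX p (B.fld s).c x = dX p C y := by
  obtain ⟨n, hn⟩ := exists_box x
  have key : ∀ {a Φ : E3 → ℝ}, Per a → Dif Φ →
      (∀ z, box (1 / 8) z → a z = Real.exp ((B.r - 1) * s) * Φ (Real.exp s • z)) → ∀ p,
      dX p (fun z => Real.exp (-B.r * s) * a z) x =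
        dX p Φ (Real.exp s • (x + ∑ i, (n i : ℝ) • ev i)) := by
    intro a Φ ha hΦ he p
    rw [← ((ha.map fun t => Real.exp (-B.r * s) * t).dX p).add_lattice n x]
    rw [← B.cut.per_rho2.add_lattice n x] at hx
    generalize x + ∑ i, (n i : ℝ) • ev i = z at hn hx
    have hz : box (1 / 10) z := fun j => by
      have h1 : |z j| ≤ ‖z‖ := by simpa using PiLp.norm_apply_le z j
      have h2 := B.cut.rho2_ge z hn
      nlinarith [norm_nonneg z]
    rw [dX_congr_box (g := fun z => Real.exp (-B.r * s) * Real.exp ((B.r - 1) * s) *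
      Φ (Real.exp s • z)) (by norm_num : (1 / 10 : ℝ) < 1 / 8)
      (fun w hw => by rw [he w hw, mul_assoc]) hz, dX_scale hΦ, ← Real.exp_add, ← Real.exp_add]
    rw [show -B.r * s + (B.r - 1) * s + s = 0 by ring, Real.exp_zero, one_mul]
  exact ⟨_, fun p i => key (h.per_u i s) (sm_of_cd (h.cd_U' i)).dif
    (fun z hz => (h.scal s z hz).1 i) p,
    key (h.per_C s) (sm_of_cd h.cd_C').dif fun z hz => (h.scal s z hz).2⟩

theorem rep_of (h : B.Pre K c0 U C) {lam Kr δ s : ℝ} (hlam : 0 < lam)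
    (hrep : ∀ (y : E3) (ξ : Fin 3 → ℝ), lam * ∑ i, ξ i ^ 2 ≤
      (1 - 9 / 4 * √(∑ i, dX i C y ^ 2)) * ∑ i, ξ i ^ 2 + ∑ p, ∑ i, ξ p * ξ i * dX p (U i) y)
    (hK0 : 0 < Kr) (hK : ∀ i x, |dX i B.cut.rho2 x| ≤ Kr * √(B.cut.rho2 x))
    (hδ : 0 < δ) (hε : 32 * K 1 * δ ^ (B.r - 1) ≤ 1) (hη : 8 * K 0 * Kr * B.nu ≤ 1 / 4)
    (hη' : 8 * K 0 * Kr * B.nu ≤ lam / 4) (hν : B.nu ≤ lam / 4 * δ) (hs : 0 ≤ s)
    (hl : Real.exp (-s) ≤ δ / 40) (x : E3) (ξ : Fin 3 → ℝ) :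
    min (1 / 2) (lam / 2) * B.mu s x * B.sig s x * ∑ i, ξ i ^ 2 ≤
      (-dS B.sig s x - ∑ i, (B.fld s).u i x * dX i (B.sig s) x
          - 9 / 4 * |(B.fld s).c x| * √(∑ i, dX i (B.sig s) x ^ 2)
          - 9 / 4 * B.sig s x * √(∑ i, dX i (B.fld s).c x ^ 2)) * ∑ i, ξ i ^ 2
        + B.sig s x * ∑ p, ∑ i, ξ p * ξ i * dX p ((B.fld s).u i) x := by
  have hΛ := lam_pos B s x
  have hS := ss_pos B s x
  have hσ := sig_pos B s x
  have hμ := mu_pos B s x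
  have hl0 := Real.exp_pos (-s)
  have k1 := h.K_pos 1
  have hN : 0 ≤ ∑ i, ξ i ^ 2 := Finset.sum_nonneg fun i _ => sq_nonneg _
  have hσN := mul_nonneg hσ.le hN
  have b0 := mul_le_mul_of_nonneg_right (small_terms hK0 hK h hs x) hN
  have q0 : B.mu s x ≤ Real.exp (-s) / B.Lam s x := mu_le (by linarith [h.r_gt]) s x
  have q1 : Real.exp (-s) / B.Lam s x ≤ Real.exp (-s) / SS B s x :=
    div_le_div_of_nonneg_left hl0.le hS (ss_le_lam h.nu_pos h.nu_le s x)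
  have q2 : Real.exp (-s) / SS B s x ≤ 1 := (div_le_one hS).2 (l_le_ss B s x)
  have q3 := div_pos hl0 hΛ
  rw [dS_sig]
  by_cases hc : Real.exp (-s) / B.Lam s x ≤ δ
  · have a1 : 32 * K 1 * B.mu s x ≤ Real.exp (-s) / SS B s x := by
      have t1 := Real.rpow_le_rpow q3.le hc (by linarith [h.r_gt] : 0 ≤ B.r - 1)
      have t2 := (mul_le_mul_of_nonneg_left t1 (by positivity : 0 ≤ 32 * K 1)).trans hε
      have t3 := mul_le_mul_of_nonneg_right t2 q3.le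
      rw [mu_split]
      linarith
    have a2 := sqrt_sum_le (a := fun i => dX i (B.fld s).c x)
      (coef_le (sm_slice h.cd_C s).dif (h.sym s hs).2.1 x).2
    have a3 := quad_ge (D := fun p i => dX p ((B.fld s).u i) x) (fun p i =>
      (coef_le (sm_slice (h.cd_u i) s).dif ((h.sym s hs).1 i) x).2 p) ξ
    have a4 := mul_le_mul_of_nonneg_right a2 hσN
    have a5 := mul_le_mul_of_nonneg_left a3 hσ.le
    have a6 := mul_le_mul_of_nonneg_right a1 hσN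
    have a7 := mul_le_mul_of_nonneg_right (q0.trans q1) hσN
    have a8 := mul_le_mul_of_nonneg_right (min_le_left (1 / 2) (lam / 2)) (mul_nonneg hμ.le hσN)
    have a9 := mul_le_mul_of_nonneg_right hη (mul_nonneg (q3.le.trans q1) hσN)
    have a10 := mul_nonneg (mul_pos k1 hμ).le hσN
    linarith
  · have a0 : δ * √(B.cut.rho2 x) ≤ Real.exp (-s) := by
      have := (lt_div_iff₀ hΛ).1 (not_le.1 hc)
      nlinarith [rho_le_lam B s x]
    have a1 : √(B.cut.rho2 x) ≤ 1 / 40 := le_of_mul_le_mul_left (by linarith) hδ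
    obtain ⟨y, e1, e2⟩ := near_eq h s (x := x)
      ((Real.sqrt_le_iff.1 a1).2.trans (by norm_num))
    have a2 : 1 - lam / 4 ≤ Real.exp (-s) / SS B s x := by
      rw [le_div_iff₀ hS]
      have t1 := mul_le_mul_of_nonneg_right hν (Real.sqrt_nonneg (B.cut.rho2 x))
      have t2 := mul_le_mul_of_nonneg_left (a0.trans (l_le_ss B s x)) hlam.le
      linarith [ss_le h.nu_pos s x]
    simp only [e1, e2]
    have a3 := mul_le_mul_of_nonneg_left (hrep y ξ) hσ.le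
    have a4 := mul_le_mul_of_nonneg_right a2 hσN
    have a5 := mul_le_mul hη' q2 (q3.le.trans q1) (by positivity)
    have a6 := mul_le_mul_of_nonneg_right a5 hσN
    have a7 := mul_le_mul (min_le_right (1 / 2) (lam / 2)) ((q0.trans q1).trans q2) hμ.le
      (by positivity)
    have a8 := mul_le_mul_of_nonneg_right a7 hσN
    linarith

theorem hyp_of (h : B.Pre K c0 U C) {lam Kr δ : ℝ} (hlam : 0 < lam)
    (hrep : ∀ (y : E3) (ξ : Fin 3 → ℝ), lam * ∑ i, ξ i ^ 2 ≤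
      (1 - 9 / 4 * √(∑ i, dX i C y ^ 2)) * ∑ i, ξ i ^ 2 + ∑ p, ∑ i, ξ p * ξ i * dX p (U i) y)
    (hK0 : 0 < Kr) (hK : ∀ i x, |dX i B.cut.rho2 x| ≤ Kr * √(B.cut.rho2 x))
    (hδ : 0 < δ) (hε : 32 * K 1 * δ ^ (B.r - 1) ≤ 1) (hη : 8 * K 0 * Kr * B.nu ≤ 1 / 4)
    (hη' : 8 * K 0 * Kr * B.nu ≤ lam / 4) (hν : B.nu ≤ lam / 4 * δ) : B.Hyp := by
  obtain ⟨K', e1, e2⟩ := ((bd_ev h).and (eventually_ge_atTop fun _ =>
    max (4 * Kr) (4 + 3 * (K 1 + 2 * Kr * K 0)))).exists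
  refine ⟨K', min (1 / 2) (lam / 2), max 0 (-Real.log (δ / 40)), by positivity,
    le_max_left _ _, fun s hs => ?_⟩
  have hs0 : 0 ≤ s := (le_max_left _ _).trans hs
  have hl : Real.exp (-s) ≤ δ / 40 := by
    rw [← Real.le_log_iff_exp_le (by positivity)]
    linarith [le_max_right 0 (-Real.log (δ / 40))]
  have e3 : 4 * Kr ≤ K' 1 := (le_max_left _ _).trans (e2 1)
  have e4 : 4 + 3 * (K 1 + 2 * Kr * K 0) ≤ K' 0 := (le_max_right _ _).trans (e2 0)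
  refine ⟨(e1 s hs0).1, (e1 s hs0).2, fun a ha ha' => ⟨?_,
    slow_sig hK0 hK h.nu_pos h.nu_le e3 s, ?_, fun x => (d_om hK0 hK h hs0 ha ha' x).trans ?_,
    rep_of h hlam hrep hK0 hK hδ hε hη hη' hν hs0 hl⟩⟩
  · exact slow_pow hK0 hK h.nu_pos h.nu_le (Real.exp_pos (-2 * a * s)) (p := -3 - 2 * a)
      (abs_le.2 ⟨by linarith, by linarith⟩) e3 s
  · exact slow_pow hK0 hK h.nu_pos h.nu_le (Real.exp_pos (-B.r * s)) (p := -B.r)
      (abs_le.2 ⟨by linarith [h.r_lt], by linarith [h.r_gt]⟩) e3 s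
  · exact mul_le_mul_of_nonneg_right (mul_le_mul_of_nonneg_right e4 (mu_pos B s x).le)
      (om_pos B a s x).le

end Hyp

theorem exists_hyp (P : Prof) (cut : Cut) (K : ℕ → ℝ) (c0 : ℝ)
    (h : ∀ nu, 0 < nu → nu ≤ 1 → (mkBg P cut nu).Pre K c0 P.U P.C) :
    ∃ nu, 0 < nu ∧ nu ≤ 1 ∧ (mkBg P cut nu).Hyp := by
  obtain ⟨Kr, hK0, hK⟩ := Hyp.rho_grad cut
  have k0 := (h 1 one_pos le_rfl).K_pos 0
  have k1 := (h 1 one_pos le_rfl).K_pos 1
  have hlam := P.lam_pos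
  obtain ⟨δ, hδ, hε⟩ : ∃ δ : ℝ, 0 < δ ∧ 32 * K 1 * δ ^ (P.r - 1) ≤ 1 := by
    refine ⟨(32 * K 1)⁻¹ ^ (P.r - 1)⁻¹, by positivity, le_of_eq ?_⟩
    rw [Real.rpow_inv_rpow (by positivity) (by linarith [P.r_gt]), mul_inv_cancel₀ (by positivity)]
  obtain ⟨nu, n0, n1, n2, n3, n4⟩ : ∃ nu : ℝ, 0 < nu ∧ nu ≤ 1 ∧ 8 * K 0 * Kr * nu ≤ 1 / 4 ∧
      8 * K 0 * Kr * nu ≤ P.lam / 4 ∧ nu ≤ P.lam / 4 * δ := by
    have t : 0 < 8 * K 0 * Kr := by positivity
    refine ⟨min (min 1 (P.lam / 4 * δ)) (min (1 / 4) (P.lam / 4) / (8 * K 0 * Kr)), by positivity,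
      (min_le_left _ _).trans (min_le_left _ _), ?_, ?_, (min_le_left _ _).trans (min_le_right _ _)⟩
    · exact ((le_div_iff₀' t).1 (min_le_right _ _)).trans (min_le_left _ _)
    · exact ((le_div_iff₀' t).1 (min_le_right _ _)).trans (min_le_right _ _)
  exact ⟨nu, n0, n1, Hyp.hyp_of (h nu n0 n1) hlam P.rep hK0 hK hδ hε n2 n3 n4⟩

end Pool.Agent.MP_187b32_an
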