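import Pool.Agent.MP_187b32_an.Bg.Main
import Pool.Agent.MP_187b32_an.Bg.Hyp

/-! MC1: the background exists. -/

set_option autoImplicit false

namespace Pool.Agent.MP_187b32_an

theorem bgStmt : BgStmt := fun h => by
  obtain ⟨P⟩ := h.prof
  obtain ⟨cut, K, c0, hp⟩ := preStmt P
  obtain ⟨nu, h0, h1, hh⟩ := exists_hyp P cut K c0 hp
  exact ⟨_, (hp nu h0 h1).ok hh⟩

end Pool.Agent.MP_187b32_an
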