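import Pool.Agent.MP_187b32_an.Bg.HypPt

/-! Symbol bounds of the coefficients of the transport operator. -/

set_option autoImplicit false

open Pool.Agent.Boltz Finset Filter

namespace Pool.Agent.MP_187b32_an.Hyp

variable {B : BgD} {K : ℕ → ℝ} {c0 : ℝ} {U : Fin 3 → E3 → ℝ} {C : E3 → ℝ}

theorem Sb.ev {m a : ℝ → E3 → ℝ} (h : Sb B.Lam m a) (h0 : 0 < B.nu) (h1 : B.nu ≤ 1)
    (hm : ∀ s x, 0 ≤ m s x) :
    ∀ᶠ K' : ℕ → ℝ in atTop, ∀ s, 0 ≤ s → SymBd K' 0 (B.sig s) (m s) (a s) := by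
  obtain ⟨K, -, hK⟩ := h.symBd (fun s x => (sig_pos B s x).le) (sig_le h0 h1)
  filter_upwards [eventually_ge_atTop K] with K' hK' s hs
  exact symBd_mono (hK s hs) hK' le_rfl (hm s)

theorem bd_ev (h : B.Pre K c0 U C) : ∀ᶠ K' : ℕ → ℝ in atTop, ∀ s, 0 ≤ s →
    (B.fld s).Bd K' (B.sig s) (B.mu s) ∧ SymBd K' 0 (B.sig s) (B.k1 s) (B.k1 s) := by
  have hΛ := lam_pos B
  have hμ := mu_pos B
  have hm : ∀ s x, 0 < B.Lam s x ^ (1 - B.r) := fun s x => Real.rpow_pos_of_pos (hΛ s x) _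
  have he : ∀ s, 0 ≤ Real.exp (-B.r * s) := fun s => (Real.exp_pos _).le
  have hu : ∀ i, Sb B.Lam (fun s x => B.Lam s x ^ (1 - B.r)) (B.u i) := fun i =>
    sb_of_symBd hΛ (sm_slice (h.cd_u i)) (fun s x => (hm s x).le) (fun _ _ => le_rfl)
      fun s hs => (h.sym s hs).1 i
  have hC : Sb B.Lam (fun s x => B.Lam s x ^ (1 - B.r)) B.C :=
    sb_of_symBd hΛ (sm_slice h.cd_C) (fun s x => (hm s x).le) (fun _ _ => le_rfl)
      fun s hs => (h.sym s hs).2.1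
  have hu' : ∀ i, Sb B.Lam (fun s x => B.mu s x * B.Lam s x ^ (1 - B.r)) (dS (B.u i)) := fun i =>
    sb_of_symBd hΛ (sm_dS (h.cd_u i)) (fun s x => (mul_pos (hμ s x) (hm s x)).le)
      (fun _ _ => le_rfl) fun s hs => (h.sym s hs).2.2.1 i
  have hC' : Sb B.Lam (fun s x => B.mu s x * B.Lam s x ^ (1 - B.r)) (dS B.C) :=
    sb_of_symBd hΛ (sm_dS h.cd_C) (fun s x => (mul_pos (hμ s x) (hm s x)).le)
      (fun _ _ => le_rfl) fun s hs => (h.sym s hs).2.2.2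
  have hF : ∀ {a : ℝ → E3 → ℝ}, Sb B.Lam (fun s x => B.Lam s x ^ (1 - B.r)) a →
      Sb B.Lam (fun s x => B.mu s x * B.Lam s x) fun s x => Real.exp (-B.r * s) * a s x :=
    fun ha => (ha.tmul he).congr (mu_lam B) fun _ _ => rfl
  have hF' : ∀ {a : ℝ → E3 → ℝ}, Sb B.Lam (fun s x => B.Lam s x ^ (1 - B.r)) a →
      Sb B.Lam (fun s x => B.mu s x * B.sig s x) fun s x => Real.exp (-B.r * s) * a s x := by
    refine fun ha => (hF ha).mono (c := B.nu⁻¹) (inv_pos.2 h.nu_pos).le fun s _ x => ?_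
    have a1 := nu_lam_le h.nu_pos h.nu_le s x
    have a2 : B.nu * B.Lam s x ≤ B.sig s x := by
      rw [sig_eq]; linarith [Real.exp_pos (-s)]
    rw [le_inv_mul_iff₀ h.nu_pos, mul_left_comm]
    exact mul_le_mul_of_nonneg_left a2 (hμ s x).le
  have hD : ∀ {a : ℝ → E3 → ℝ}, Sb B.Lam (fun s x => B.Lam s x ^ (1 - B.r)) a → ∀ i,
      Sb B.Lam B.mu fun s x => -(Real.exp (-B.r * s) * dX i (a s) x) := by
    refine fun ha i => ((ha.dX i).tmul he).neg.congr (fun s x => ?_) fun _ _ => rfl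
    rw [← mul_div_assoc, mu_lam, mul_div_assoc, div_self (hΛ s x).ne', mul_one]
  have hI := hC.inv h.C_pos hm h.c0_pos h.C_ge
  have hM : ∀ {a : ℝ → E3 → ℝ}, Sb B.Lam (fun s x => B.Lam s x ^ (1 - B.r)) a →
      Sb B.Lam (fun s x => B.mu s x * B.Lam s x ^ (1 - B.r)) (dS a) →
      Sb B.Lam B.mu fun s x => -B.mat a s x / B.C s x := by
    intro a ha ha'
    have a1 : Sb B.Lam (fun s x => B.mu s x * B.Lam s x ^ (1 - B.r)) (B.mat a) :=
      ha'.add (Sb.sum3 fun i => ((hF (hu i)).mul (ha.dX i)).congr (fun s x => by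
        have := (hΛ s x).ne'
        field_simp) fun _ _ => rfl)
    refine (a1.neg.mul hI).congr (fun s x => ?_) fun s x => (div_eq_mul_inv _ _).symm
    rw [mul_assoc, mul_inv_cancel₀ (hm s x).ne', mul_one]
  have hb1 : ∀ i j, Sb B.Lam B.mu fun s => (B.fld s).b1 i j := by
    intro i j
    by_cases e : i = j
    · refine ((hD (hu j) i).add (hM hC hC')).congr (fun _ _ => rfl) fun s x => ?_
      simp only [BgD.fld, if_pos e]
      ring
    · refine (hD (hu j) i).congr (fun _ _ => rfl) fun s x => ?_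
      simp only [BgD.fld, if_neg e, sub_zero]
  have hk : Sb B.Lam B.k1 B.k1 := by
    refine ((hC.pow 11).tmul he).mono (c := (c0 ^ 11)⁻¹) (by have := h.c0_pos; positivity)
      fun s hs x => ?_
    rw [le_inv_mul_iff₀ (pow_pos h.c0_pos 11), mul_left_comm, ← mul_pow]
    exact mul_le_mul_of_nonneg_left (pow_le_pow_left₀ (mul_pos h.c0_pos (hm s x)).le
      (h.C_ge s hs x) 11) (he s)
  have p1 : ∀ s x, 0 ≤ B.mu s x := fun s x => (hμ s x).le
  have p2 : ∀ s x, 0 ≤ B.mu s x * B.sig s x := fun s x => (mul_pos (hμ s x) (sig_pos B s x)).le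
  have p3 : ∀ s x, 0 ≤ B.k1 s x := fun s x => mul_nonneg (he s) (pow_pos (h.C_pos s x) 11).le
  filter_upwards [eventually_all.2 fun i => (hF' (hu i)).ev h.nu_pos h.nu_le p2,
    (hF' hC).ev h.nu_pos h.nu_le p2,
    eventually_all.2 fun j => (hM (hu j) (hu' j)).ev h.nu_pos h.nu_le p1,
    eventually_all.2 fun i => eventually_all.2 fun j => (hb1 i j).ev h.nu_pos h.nu_le p1,
    eventually_all.2 fun i => (hD hC i).ev h.nu_pos h.nu_le p1,
    hk.ev h.nu_pos h.nu_le p3] with K' e1 e2 e3 e4 e5 e6 s hs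
  exact ⟨⟨fun i => symBd_mono (e1 i s hs) (fun _ => le_rfl) (Nat.zero_le 2) (p2 s), e2 s hs,
    fun j => e3 j s hs, fun i j => e4 i j s hs, fun i => e5 i s hs⟩, e6 s hs⟩

end Pool.Agent.MP_187b32_an.Hyp
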