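import Pool.Agent.MP_187b32_an.Bg.HypSym
import Pool.Agent.MP_187b32_an.Bg.Defs
import Pool.Agent.MP_187b32_an.Calc.Torus

/-! Pointwise facts about the weights, used for the field `hyp`. -/

set_option autoImplicit false

open Pool.Agent.Boltz Finset Filter Topology
open scoped ContDiff

namespace Pool.Agent.MP_187b32_an.Hyp

theorem sm_of_cd {a : E3 → ℝ} (ha : ContDiff ℝ ∞ a) : Sm a := by
  refine smC_coind (fun g => ContDiff ℝ ∞ (g ())) ?_ ha
  intro g hg
  refine ⟨hg.continuous.comp continuous_snd, fun i => ⟨fun _ x => fderiv ℝ (g ()) x (ev i),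
    (hg.fderiv_right (m := ∞) (by simp)).clm_apply contDiff_const, fun s x => HasDerivAt.hd ?_⟩⟩
  have h1 : HasDerivAt (fun t : ℝ => x + t • ev i) (ev i) 0 := by
    simpa using ((hasDerivAt_id (0 : ℝ)).smul_const (ev i)).const_add x
  exact HasFDerivAt.comp_hasDerivAt (0 : ℝ)
    (by simpa using (hg.differentiable (by simp) x).hasFDerivAt) h1

theorem sm_slice {a : ℝ → E3 → ℝ} (ha : ContDiff ℝ ∞ fun p : ℝ × E3 => a p.1 p.2) (s : ℝ) :
    Sm (a s) := sm_of_cd (ha.comp (contDiff_const.prodMk contDiff_id))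

theorem sm_dS {a : ℝ → E3 → ℝ} (ha : ContDiff ℝ ∞ fun p : ℝ × E3 => a p.1 p.2) (s : ℝ) :
    Sm (dS a s) := by
  have e : dS a s = fun x => fderiv ℝ (fun p : ℝ × E3 => a p.1 p.2) (s, x) (1, 0) := by
    funext x
    have h1 : HasDerivAt (fun t : ℝ => ((t, x) : ℝ × E3)) (1, 0) s :=
      (hasDerivAt_id s).prodMk (hasDerivAt_const s x)
    exact (HasFDerivAt.comp_hasDerivAt s (ha.differentiable (by simp) (s, x)).hasFDerivAt h1).deriv
  rw [e]
  exact sm_of_cd (((ha.fderiv_right (m := ∞) (by simp)).comp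
    (contDiff_const.prodMk contDiff_id)).clm_apply contDiff_const)

theorem dX_congr_box {f g : E3 → ℝ} {a b : ℝ} (hab : a < b) (h : ∀ x, box b x → f x = g x)
    {x : E3} (hx : box a x) (i : Fin 3) : dX i f x = dX i g x := by
  unfold dX limUnder
  congr 1
  refine Filter.map_congr (Filter.Eventually.filter_mono nhdsWithin_le_nhds ?_)
  have : ∀ᶠ t in 𝓝 (0 : ℝ), |t| < b - a := by
    simpa using eventually_abs_sub_lt (0 : ℝ) (sub_pos.2 hab)
  filter_upwards [this] with t ht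
  rw [h x (fun j => (hx j).trans hab.le), h (x + t • ev i) fun j => ?_]
  have h1 : |(t • ev i : E3) j| ≤ |t| := by
    by_cases e : j = i <;> simp [ev_apply, e]
  have h2 := abs_add_le (x j) ((t • ev i : E3) j)
  have h3 := hx j
  simp only [PiLp.add_apply]
  linarith

theorem dX_scale {U : E3 → ℝ} (hU : Dif U) (c e : ℝ) (i : Fin 3) (x : E3) :
    dX i (fun y => c * U (e • y)) x = c * e * dX i U (e • x) := by
  refine dX_eq (HasDerivAt.hd ?_)
  have h1 : HasDerivAt (fun t : ℝ => e * t) e 0 := by simpa using (hasDerivAt_id (0 : ℝ)).const_mul e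
  have h2 := HasDerivAt.comp (0 : ℝ) (h := fun t : ℝ => e * t)
    (by simpa using (hU i (e • x)).hasDerivAt) h1
  refine ((h2.const_mul c).congr_deriv (by ring)).congr_of_eventuallyEq
    (Filter.Eventually.of_forall fun t => ?_)
  simp [smul_add, smul_smul]

theorem exists_box (x : E3) : ∃ n : Fin 3 → ℤ, box (1 / 2) (x + ∑ i, (n i : ℝ) • ev i) := by
  obtain ⟨n, hn⟩ := exists_lattice_mem_cube (WithLp.toLp 2 fun _ => -(1 / 2)) x
  refine ⟨n, fun i => ?_⟩
  have := hn i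
  simp only [Set.mem_Ioc] at this
  exact abs_le.2 ⟨this.1.le, by linarith [this.2]⟩

theorem rho_nonneg (c : Cut) (x : E3) : 0 ≤ c.rho2 x := by
  obtain ⟨n, hn⟩ := exists_box x
  rw [← c.per_rho2.add_lattice n x]
  exact le_trans (by positivity) (c.rho2_ge _ hn)

theorem rho_grad (c : Cut) : ∃ K : ℝ, 0 < K ∧ ∀ i x, |dX i c.rho2 x| ≤ K * √(c.rho2 x) := by
  have hs := sm_of_cd c.cd_rho2
  choose M M0 hM using fun i => (c.per_rho2.dX i).exists_bound (hs.dX i).cont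
  have hsum : 0 ≤ ∑ i, M i := Finset.sum_nonneg fun i _ => (M0 i).le
  refine ⟨2 + 18 * ∑ i, M i, by positivity, fun i x => ?_⟩
  obtain ⟨n, hn⟩ := exists_box x
  rw [← c.per_rho2.add_lattice n x, ← (c.per_rho2.dX i).add_lattice n x]
  generalize x + ∑ i, (n i : ℝ) • ev i = y at hn
  have hq := Real.sqrt_nonneg (c.rho2 y)
  by_cases hy : box (1 / 5) y
  · have e : dX i (fun z : E3 => ‖z‖ ^ 2) y = 2 * y i := by
      refine dX_eq (HasDerivAt.hd ?_)
      have h1 : HasDerivAt (fun t : ℝ => y + t • ev i) (ev i) 0 := by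
        simpa using ((hasDerivAt_id (0 : ℝ)).smul_const (ev i)).const_add y
      simpa [inner_ev] using h1.norm_sq
    rw [dX_congr_box (by norm_num) c.rho2_eq hy, e,
      c.rho2_eq y (fun j => (hy j).trans (by norm_num)), Real.sqrt_sq (norm_nonneg _), abs_mul]
    have h1 : |y i| ≤ ‖y‖ := by simpa using PiLp.norm_apply_le y i
    have h2 := norm_nonneg y
    norm_num
    nlinarith
  · obtain ⟨j, hj⟩ := not_forall.1 hy
    have h1 : |y j| ≤ ‖y‖ := by simpa using PiLp.norm_apply_le y j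
    have h2 := c.rho2_ge y hn
    have h3 : 1 / 18 ≤ √(c.rho2 y) := Real.le_sqrt_of_sq_le (by nlinarith [not_le.1 hj])
    have h4 := (hM i y).trans (Finset.single_le_sum (fun i _ => (M0 i).le) (Finset.mem_univ i))
    nlinarith

variable (B : BgD)

/-- The square root in the definition of `sig`. -/
noncomputable def SS (s : ℝ) (x : E3) : ℝ := √(Real.exp (-2 * s) + B.nu ^ 2 * B.cut.rho2 x)

theorem exp2 (s : ℝ) : Real.exp (-2 * s) = Real.exp (-s) ^ 2 := by
  rw [← Real.exp_nat_mul]; congr 1; push_cast; ring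

theorem lam_arg (s : ℝ) (x : E3) : 0 < Real.exp (-2 * s) + B.cut.rho2 x := by
  have := rho_nonneg B.cut x
  positivity

theorem ss_arg (s : ℝ) (x : E3) : 0 < Real.exp (-2 * s) + B.nu ^ 2 * B.cut.rho2 x := by
  have := rho_nonneg B.cut x
  positivity

theorem lam_pos (s : ℝ) (x : E3) : 0 < B.Lam s x := Real.sqrt_pos.2 (lam_arg B s x)

theorem ss_pos (s : ℝ) (x : E3) : 0 < SS B s x := Real.sqrt_pos.2 (ss_arg B s x)

theorem sig_eq (s : ℝ) (x : E3) : B.sig s x = Real.exp (-s) + SS B s x := rfl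

theorem sig_pos (s : ℝ) (x : E3) : 0 < B.sig s x := add_pos (Real.exp_pos _) (ss_pos B s x)

theorem l_le_lam (s : ℝ) (x : E3) : Real.exp (-s) ≤ B.Lam s x :=
  Real.le_sqrt_of_sq_le (by rw [exp2]; linarith [rho_nonneg B.cut x])

theorem l_le_ss (s : ℝ) (x : E3) : Real.exp (-s) ≤ SS B s x :=
  Real.le_sqrt_of_sq_le (by
    have := mul_nonneg (sq_nonneg B.nu) (rho_nonneg B.cut x)
    rw [exp2]; linarith)

theorem rho_le_lam (s : ℝ) (x : E3) : √(B.cut.rho2 x) ≤ B.Lam s x :=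
  Real.sqrt_le_sqrt (by linarith [Real.exp_pos (-2 * s)])

theorem mu_pos (s : ℝ) (x : E3) : 0 < B.mu s x :=
  mul_pos (Real.exp_pos _) (Real.rpow_pos_of_pos (lam_pos B s x) _)

theorem om_pos (a s : ℝ) (x : E3) : 0 < B.om a s x :=
  mul_pos (Real.exp_pos _) (Real.rpow_pos_of_pos (lam_pos B s x) _)

theorem mu_eq (s : ℝ) (x : E3) : B.mu s x = (Real.exp (-s) / B.Lam s x) ^ B.r := by
  rw [Real.div_rpow (Real.exp_pos _).le (lam_pos B s x).le, ← Real.exp_mul, BgD.mu,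
    Real.rpow_neg (lam_pos B s x).le, div_eq_mul_inv]
  congr 2
  ring

theorem mu_lam (s : ℝ) (x : E3) :
    Real.exp (-B.r * s) * B.Lam s x ^ (1 - B.r) = B.mu s x * B.Lam s x := by
  rw [BgD.mu, sub_eq_add_neg, Real.rpow_add (lam_pos B s x), Real.rpow_one]
  ring

theorem mu_split (s : ℝ) (x : E3) : B.mu s x =
    (Real.exp (-s) / B.Lam s x) ^ (B.r - 1) * (Real.exp (-s) / B.Lam s x) := by
  rw [mu_eq, ← Real.rpow_add_one (div_pos (Real.exp_pos _) (lam_pos B s x)).ne', sub_add_cancel]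

theorem cd_lam (s : ℝ) : ContDiff ℝ ∞ (B.Lam s) :=
  (contDiff_const.add B.cut.cd_rho2).sqrt fun x => (lam_arg B s x).ne'

theorem per_lam (s : ℝ) : Per (B.Lam s) := fun i x => by simp only [BgD.Lam, B.cut.per_rho2 i x]

theorem dX_lam (s : ℝ) (i : Fin 3) (x : E3) :
    dX i (B.Lam s) x = dX i B.cut.rho2 x / (2 * B.Lam s x) := by
  have h := dX_comp (sm_of_cd B.cut.cd_rho2).dif (x := x)
    (((hasDerivAt_id (B.cut.rho2 x)).const_add (Real.exp (-2 * s))).sqrt (lam_arg B s x).ne') i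
  refine Eq.trans h ?_
  simp only [id, BgD.Lam]
  ring

theorem dX_sig (s : ℝ) (i : Fin 3) (x : E3) :
    dX i (B.sig s) x = B.nu ^ 2 * dX i B.cut.rho2 x / (2 * SS B s x) := by
  have h := dX_comp (sm_of_cd B.cut.cd_rho2).dif (x := x)
    (((((hasDerivAt_id (B.cut.rho2 x)).const_mul (B.nu ^ 2)).const_add
      (Real.exp (-2 * s))).sqrt (ss_arg B s x).ne').const_add (Real.exp (-s))) i
  refine Eq.trans h ?_
  simp only [id, SS]
  ring

theorem dX_lam_pow (c p s : ℝ) (i : Fin 3) (x : E3) :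
    dX i (fun y => c * B.Lam s y ^ p) x =
      p * (c * B.Lam s x ^ p) * (dX i (B.Lam s) x / B.Lam s x) := by
  have h0 := lam_pos B s x
  rw [dX_comp (sm_of_cd (cd_lam B s)).dif (φ := fun z => c * z ^ p)
    ((Real.hasDerivAt_rpow_const (Or.inl h0.ne')).const_mul c) i, Real.rpow_sub_one h0.ne']
  ring

theorem hd_exp2 (s : ℝ) : HasDerivAt (fun t => Real.exp (-2 * t)) (-2 * Real.exp (-2 * s)) s := by
  simpa [mul_comm] using ((hasDerivAt_id s).const_mul (-2)).exp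

theorem dS_sig (s : ℝ) (x : E3) : dS B.sig s x = -(Real.exp (-s) / SS B s x * B.sig s x) := by
  have h1 : HasDerivAt (fun t => Real.exp (-t)) (-Real.exp (-s)) s := by
    simpa using (hasDerivAt_neg s).exp
  have h2 := h1.add (((hd_exp2 s).add_const (B.nu ^ 2 * B.cut.rho2 x)).sqrt (ss_arg B s x).ne')
  refine Eq.trans h2.deriv ?_
  have := (ss_pos B s x).ne'
  rw [sig_eq, ← SS, exp2]
  field_simp
  ring

theorem dS_om (a s : ℝ) (x : E3) : dS (B.om a) s x =
    -2 * a * B.om a s x + (3 + 2 * a) * B.om a s x * (Real.exp (-s) / B.Lam s x) ^ 2 := by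
  have h0 := lam_pos B s x
  have h1 : HasDerivAt (fun t => Real.exp (-2 * a * t)) (Real.exp (-2 * a * s) * (-2 * a)) s := by
    simpa using ((hasDerivAt_id s).const_mul (-2 * a)).exp
  have h2 := (((hd_exp2 s).add_const (B.cut.rho2 x)).sqrt (lam_arg B s x).ne').rpow_const
    (p := -3 - 2 * a) (Or.inl h0.ne')
  refine Eq.trans (h1.mul h2).deriv ?_
  rw [← BgD.Lam, Real.rpow_sub_one h0.ne', BgD.om, exp2]
  field_simp
  ring

variable {B}

theorem ss_le_lam (h0 : 0 < B.nu) (h1 : B.nu ≤ 1) (s : ℝ) (x : E3) : SS B s x ≤ B.Lam s x :=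
  Real.sqrt_le_sqrt (by
    have := mul_le_mul_of_nonneg_right (pow_le_one₀ (n := 2) h0.le h1) (rho_nonneg B.cut x)
    linarith)

theorem sig_le (h0 : 0 < B.nu) (h1 : B.nu ≤ 1) (s : ℝ) (x : E3) : B.sig s x ≤ 2 * B.Lam s x := by
  rw [sig_eq]
  linarith [l_le_lam B s x, ss_le_lam h0 h1 s x]

theorem nu_lam_le (h0 : 0 < B.nu) (h1 : B.nu ≤ 1) (s : ℝ) (x : E3) :
    B.nu * B.Lam s x ≤ SS B s x := by
  refine Real.le_sqrt_of_sq_le ?_
  rw [mul_pow, BgD.Lam, Real.sq_sqrt (lam_arg B s x).le]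
  have := mul_le_mul_of_nonneg_right (pow_le_one₀ (n := 2) h0.le h1) (Real.exp_pos (-2 * s)).le
  linarith

theorem ss_le (h0 : 0 < B.nu) (s : ℝ) (x : E3) :
    SS B s x ≤ Real.exp (-s) + B.nu * √(B.cut.rho2 x) := by
  have h2 := Real.exp_pos (-s)
  have h3 := Real.sqrt_nonneg (B.cut.rho2 x)
  refine Real.sqrt_le_iff.2 ⟨by positivity, ?_⟩
  rw [add_sq, mul_pow, Real.sq_sqrt (rho_nonneg B.cut x), exp2]
  have : 0 ≤ 2 * Real.exp (-s) * (B.nu * √(B.cut.rho2 x)) := by positivity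
  linarith

theorem mu_le (hr : 1 ≤ B.r) (s : ℝ) (x : E3) : B.mu s x ≤ Real.exp (-s) / B.Lam s x := by
  have h0 := div_pos (Real.exp_pos (-s)) (lam_pos B s x)
  rw [mu_eq]
  simpa using Real.rpow_le_rpow_of_exponent_ge h0
    ((div_le_one (lam_pos B s x)).2 (l_le_lam B s x)) hr

theorem sq_le_mu (hr : B.r ≤ 2) (s : ℝ) (x : E3) :
    (Real.exp (-s) / B.Lam s x) ^ 2 ≤ B.mu s x := by
  have h0 := div_pos (Real.exp_pos (-s)) (lam_pos B s x)
  rw [mu_eq]
  simpa using Real.rpow_le_rpow_of_exponent_ge h0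
    ((div_le_one (lam_pos B s x)).2 (l_le_lam B s x)) hr

section grad

variable {Kr : ℝ} (hK0 : 0 < Kr) (hK : ∀ i x, |dX i B.cut.rho2 x| ≤ Kr * √(B.cut.rho2 x))
include hK0 hK

theorem abs_dX_lam (s : ℝ) (i : Fin 3) (x : E3) : |dX i (B.Lam s) x| ≤ Kr / 2 := by
  have h0 := lam_pos B s x
  rw [dX_lam, abs_div, abs_of_pos (by positivity : 0 < 2 * B.Lam s x), div_le_iff₀ (by positivity)]
  have := mul_le_mul_of_nonneg_left (rho_le_lam B s x) hK0.le
  linarith [hK i x]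

theorem abs_dX_sig (h0 : 0 < B.nu) (h1 : B.nu ≤ 1) (s : ℝ) (i : Fin 3) (x : E3) :
    |dX i (B.sig s) x| ≤ B.nu * Kr ∧ |dX i (B.sig s) x| ≤ Kr := by
  have h2 := ss_pos B s x
  have h3 : |dX i (B.sig s) x| ≤ B.nu * Kr := by
    rw [dX_sig, abs_div, abs_of_pos (by positivity : 0 < 2 * SS B s x),
      div_le_iff₀ (by positivity), abs_mul, abs_of_pos (by positivity : 0 < B.nu ^ 2)]
    have a1 := (mul_le_mul_of_nonneg_left (rho_le_lam B s x) h0.le).trans (nu_lam_le h0 h1 s x)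
    have a2 := mul_le_mul_of_nonneg_left (hK i x) (sq_nonneg B.nu)
    have a3 := mul_le_mul_of_nonneg_left a1 (mul_pos h0 hK0).le
    have a4 := mul_pos (mul_pos h0 hK0) h2
    nlinarith
  exact ⟨h3, h3.trans (by nlinarith)⟩

theorem abs_dX_pow {c p : ℝ} (hc : 0 < c) (hp : |p| ≤ 4) (s : ℝ) (i : Fin 3) (x : E3) :
    B.Lam s x * |dX i (fun y => c * B.Lam s y ^ p) x| ≤ 2 * Kr * (c * B.Lam s x ^ p) := by
  have h0 := lam_pos B s x
  have h1 : 0 < c * B.Lam s x ^ p := mul_pos hc (Real.rpow_pos_of_pos h0 _)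
  rw [dX_lam_pow, abs_mul, abs_mul, abs_div, abs_of_pos h1, abs_of_pos h0]
  have h2 := mul_le_mul hp (abs_dX_lam hK0 hK s i x) (abs_nonneg _) (by norm_num)
  have h3 := mul_le_mul_of_nonneg_right h2 h1.le
  calc _ = |p| * |dX i (B.Lam s) x| * (c * B.Lam s x ^ p) := by field_simp
    _ ≤ _ := by linarith

theorem slow_pow (h0 : 0 < B.nu) (h1 : B.nu ≤ 1) {c p K : ℝ} (hc : 0 < c) (hp : |p| ≤ 4)
    (hKK : 4 * Kr ≤ K) (s : ℝ) : Slow K (B.sig s) fun y => c * B.Lam s y ^ p := by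
  have hpos : ∀ x, 0 < c * B.Lam s x ^ p := fun x =>
    mul_pos hc (Real.rpow_pos_of_pos (lam_pos B s x) _)
  refine ⟨sm_of_cd (contDiff_const.mul ((cd_lam B s).rpow_const_of_ne
    fun x => (lam_pos B s x).ne')), (per_lam B s).map fun z => c * z ^ p, hpos, fun i x => ?_⟩
  have a1 := mul_le_mul_of_nonneg_right (sig_le h0 h1 s x)
    (abs_nonneg (dX i (fun y => c * B.Lam s y ^ p) x))
  have a2 := abs_dX_pow hK0 hK hc hp s i x
  have a3 := mul_le_mul_of_nonneg_right hKK (hpos x).le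
  linarith

theorem slow_sig (h0 : 0 < B.nu) (h1 : B.nu ≤ 1) {K : ℝ} (hKK : 4 * Kr ≤ K) (s : ℝ) :
    Slow K (B.sig s) (B.sig s) := by
  refine ⟨sm_of_cd (contDiff_const.add ((contDiff_const.add (contDiff_const.mul
    B.cut.cd_rho2)).sqrt fun x => (ss_arg B s x).ne')), fun i x => by
      simp only [BgD.sig, B.cut.per_rho2 i x], sig_pos B s, fun i x => ?_⟩
  rw [mul_comm]
  exact mul_le_mul_of_nonneg_right ((abs_dX_sig hK0 hK h0 h1 s i x).2.trans (by linarith))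
    (sig_pos B s x).le

end grad

end Pool.Agent.MP_187b32_an.Hyp
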