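import Pool.Agent.MP_187b32_an.Spec.Energy

/-! A small symbol calculus, uniform in `s ≥ 0`, at a length scale `Λ`. -/

set_option autoImplicit false

open Pool.Agent.Boltz Finset

namespace Pool.Agent.MP_187b32_an.Hyp

theorem dX_comp {a : E3 → ℝ} (ha : Dif a) {φ : ℝ → ℝ} {φ' : ℝ} {x : E3}
    (h : HasDerivAt φ φ' (a x)) (i : Fin 3) : dX i (fun y => φ (a y)) x = φ' * dX i a x := by
  refine dX_eq (HasDerivAt.hd ?_)
  exact HasDerivAt.comp (0 : ℝ) (by simpa using h) (ha i x).hasDerivAt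

theorem dif_comp {a : E3 → ℝ} (ha : Dif a) {φ φ' : ℝ → ℝ}
    (h : ∀ x, HasDerivAt φ (φ' (a x)) (a x)) : Dif fun y => φ (a y) :=
  dif_of_hd (G' := fun i x => φ' (a x) * dX i a x) fun i x =>
    HasDerivAt.hd (HasDerivAt.comp (0 : ℝ) (by simpa using h x) (ha i x).hasDerivAt)

/-- Polynomials in `1 / a` with smooth coefficients. -/
inductive InvSpan (a : E3 → ℝ) : (Unit → E3 → ℝ) → Prop
  | base (b : E3 → ℝ) (hb : Sm b) (k : ℕ) : InvSpan a fun _ x => b x * ((a x)⁻¹) ^ k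
  | add (g h : Unit → E3 → ℝ) (hg : InvSpan a g) (hh : InvSpan a h) :
      InvSpan a fun s x => g s x + h s x

theorem sm_inv {a : E3 → ℝ} (ha : Sm a) (h0 : ∀ x, a x ≠ 0) : Sm fun x => (a x)⁻¹ := by
  refine smC_coind (InvSpan a) ?_ (by simpa using InvSpan.base (a := a) _ (Sm.const 1) 1)
  intro g hg
  induction hg with
  | base b hb k =>
    refine ⟨(hb.cont.comp continuous_snd).mul (((ha.cont.comp continuous_snd).inv₀
      fun p => h0 p.2).pow k), fun i => ⟨_, InvSpan.add _ _ (InvSpan.base _ (hb.dX i) k)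
      (InvSpan.base (fun x => b x * (-k * dX i a x)) (hb.mul ((Sm.const _).mul (ha.dX i))) (k + 1)),
      fun s x => HasDerivAt.hd ?_⟩⟩
    have h1 := (hb.dif i x).hasDerivAt
    have h2 := (((ha.dif i x).hasDerivAt.inv (by simpa using h0 x)).fun_pow k)
    refine (h1.mul h2).congr_deriv ?_
    simp only [zero_smul, add_zero, Pi.inv_apply]
    have := h0 x
    rcases k with _ | k
    · simp
    · simp only [Nat.add_sub_cancel, div_eq_mul_inv, ← inv_pow]
      ring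
  | add g h _ _ ihg ihh =>
    refine ⟨ihg.1.add ihh.1, fun i => ?_⟩
    obtain ⟨a', ha1, ha2⟩ := ihg.2 i
    obtain ⟨b', hb1, hb2⟩ := ihh.2 i
    exact ⟨_, InvSpan.add _ _ ha1 hb1, fun s x => (ha2 s x).add (hb2 s x)⟩

/-- `a` has size `m`, uniformly in `s ≥ 0`. -/
def Sz (m a : ℝ → E3 → ℝ) : Prop := ∃ K : ℝ, 0 ≤ K ∧ ∀ s, 0 ≤ s → ∀ x, |a s x| ≤ K * m s x

/-- Symbol of size `m` up to order `n`. -/
def SyN (Λ : ℝ → E3 → ℝ) : ℕ → (ℝ → E3 → ℝ) → (ℝ → E3 → ℝ) → Prop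
  | 0, m, a => Sz m a
  | n + 1, m, a => Sz m a ∧ ∀ i, SyN Λ n (fun s x => m s x / Λ s x) fun s => dX i (a s)

variable {Λ m m' a b : ℝ → E3 → ℝ}

theorem SyN.sz {n : ℕ} (h : SyN Λ n m a) : Sz m a := by
  cases n with
  | zero => exact h
  | succ n => exact h.1

theorem SyN.pred {n : ℕ} (h : SyN Λ (n + 1) m a) : SyN Λ n m a := by
  induction n generalizing m a with
  | zero => exact h.1
  | succ n ih => exact ⟨h.1, fun i => ih (h.2 i)⟩

theorem Sz.mono (h : Sz m a) {c : ℝ} (hc : 0 ≤ c) (hm : ∀ s, 0 ≤ s → ∀ x, m s x ≤ c * m' s x) :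
    Sz m' a := by
  obtain ⟨K, h0, h⟩ := h
  exact ⟨K * c, mul_nonneg h0 hc, fun s hs x => (h s hs x).trans (by
    rw [mul_assoc]; exact mul_le_mul_of_nonneg_left (hm s hs x) h0)⟩

theorem SyN.mono (hΛ : ∀ s x, 0 < Λ s x) {n : ℕ} (h : SyN Λ n m a) {c : ℝ} (hc : 0 ≤ c)
    (hm : ∀ s, 0 ≤ s → ∀ x, m s x ≤ c * m' s x) : SyN Λ n m' a := by
  induction n generalizing m m' a with
  | zero => exact Sz.mono h hc hm
  | succ n ih =>
    refine ⟨h.1.mono hc hm, fun i => ih (h.2 i) fun s hs x => ?_⟩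
    rw [← mul_div_assoc]
    exact div_le_div_of_nonneg_right (hm s hs x) (hΛ s x).le

theorem Sz.add (h : Sz m a) (h' : Sz m b) : Sz m fun s x => a s x + b s x := by
  obtain ⟨K, h0, h⟩ := h
  obtain ⟨K', h0', h'⟩ := h'
  exact ⟨K + K', add_nonneg h0 h0', fun s hs x => (abs_add_le _ _).trans (by
    rw [add_mul]; exact add_le_add (h s hs x) (h' s hs x))⟩

theorem Sz.mul (h : Sz m a) (h' : Sz m' b) :
    Sz (fun s x => m s x * m' s x) fun s x => a s x * b s x := by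
  obtain ⟨K, h0, h⟩ := h
  obtain ⟨K', h0', h'⟩ := h'
  refine ⟨K * K', mul_nonneg h0 h0', fun s hs x => ?_⟩
  rw [abs_mul, mul_mul_mul_comm]
  exact mul_le_mul (h s hs x) (h' s hs x) (abs_nonneg _) ((abs_nonneg _).trans (h s hs x))

theorem SyN.add {n : ℕ} (ha : ∀ s, Sm (a s)) (hb : ∀ s, Sm (b s)) (h : SyN Λ n m a)
    (h' : SyN Λ n m b) : SyN Λ n m fun s x => a s x + b s x := by
  induction n generalizing m a b with
  | zero => exact Sz.add h h'
  | succ n ih =>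
    refine ⟨h.1.add h'.1, fun i => ?_⟩
    simp only [fun s => dX_add (ha s).dif (hb s).dif i]
    exact ih (fun s => (ha s).dX i) (fun s => (hb s).dX i) (h.2 i) (h'.2 i)

theorem SyN.mul (hΛ : ∀ s x, 0 < Λ s x) {n : ℕ} (ha : ∀ s, Sm (a s)) (hb : ∀ s, Sm (b s))
    (h : SyN Λ n m a) (h' : SyN Λ n m' b) :
    SyN Λ n (fun s x => m s x * m' s x) fun s x => a s x * b s x := by
  induction n generalizing m m' a b with
  | zero => exact Sz.mul h h'
  | succ n ih =>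
    refine ⟨h.1.mul h'.1, fun i => ?_⟩
    simp only [fun s => dX_mul (ha s).dif (hb s).dif i]
    refine SyN.add (fun s => ((ha s).dX i).mul (hb s)) (fun s => (ha s).mul ((hb s).dX i))
      ((ih (fun s => (ha s).dX i) hb (h.2 i) h'.pred).mono hΛ zero_le_one fun s _ x => ?_)
      ((ih ha (fun s => (hb s).dX i) h.pred (h'.2 i)).mono hΛ zero_le_one fun s _ x => ?_)
    · exact le_of_eq (by ring)
    · exact le_of_eq (by ring)

theorem syN_zero {n : ℕ} : SyN Λ n m fun _ _ => 0 := by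
  induction n generalizing m with
  | zero => exact ⟨0, le_rfl, fun s _ x => by simp⟩
  | succ n ih => exact ⟨⟨0, le_rfl, fun s _ x => by simp⟩, fun i => by simpa [dX_const] using ih⟩

/-- Smooth symbol of size `m`. -/
structure Sb (Λ m a : ℝ → E3 → ℝ) : Prop where
  pos : ∀ s x, 0 < Λ s x
  sm : ∀ s, Sm (a s)
  bd : ∀ n, SyN Λ n m a

theorem Sb.sz (h : Sb Λ m a) : Sz m a := h.bd 0

theorem Sb.mono (h : Sb Λ m a) {c : ℝ} (hc : 0 ≤ c)
    (hm : ∀ s, 0 ≤ s → ∀ x, m s x ≤ c * m' s x) : Sb Λ m' a :=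
  ⟨h.pos, h.sm, fun n => (h.bd n).mono h.pos hc hm⟩

theorem Sb.congr (h : Sb Λ m a) (hm : ∀ s x, m s x = m' s x) (hab : ∀ s x, a s x = b s x) :
    Sb Λ m' b := by
  obtain rfl : m = m' := funext fun s => funext (hm s)
  obtain rfl : a = b := funext fun s => funext (hab s)
  exact h

theorem Sb.add (h : Sb Λ m a) (h' : Sb Λ m b) : Sb Λ m fun s x => a s x + b s x :=
  ⟨h.pos, fun s => (h.sm s).add (h'.sm s), fun n => (h.bd n).add h.sm h'.sm (h'.bd n)⟩

theorem Sb.mul (h : Sb Λ m a) (h' : Sb Λ m' b) :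
    Sb Λ (fun s x => m s x * m' s x) fun s x => a s x * b s x :=
  ⟨h.pos, fun s => (h.sm s).mul (h'.sm s), fun n => (h.bd n).mul h.pos h.sm h'.sm (h'.bd n)⟩

theorem Sb.dX (h : Sb Λ m a) (i : Fin 3) :
    Sb Λ (fun s x => m s x / Λ s x) fun s => dX i (a s) :=
  ⟨h.pos, fun s => (h.sm s).dX i, fun n => (h.bd (n + 1)).2 i⟩

theorem sb_zero (hΛ : ∀ s x, 0 < Λ s x) : Sb Λ m fun _ _ => 0 :=
  ⟨hΛ, fun _ => Sm.const _, fun _ => syN_zero⟩

theorem sb_time (hΛ : ∀ s x, 0 < Λ s x) (c : ℝ → ℝ) : Sb Λ (fun s _ => |c s|) fun s _ => c s := by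
  refine ⟨hΛ, fun s => Sm.const _, fun n => ?_⟩
  have h0 : Sz (fun s _ => |c s|) fun s (_ : E3) => c s := ⟨1, zero_le_one, fun s _ x => by simp⟩
  cases n with
  | zero => exact h0
  | succ n => exact ⟨h0, fun i => by simpa [dX_const] using syN_zero⟩

theorem Sb.tmul (h : Sb Λ m a) {c : ℝ → ℝ} (hc : ∀ s, 0 ≤ c s) :
    Sb Λ (fun s x => c s * m s x) fun s x => c s * a s x :=
  ((sb_time h.pos c).mul h).congr (fun s x => by rw [abs_of_nonneg (hc s)]) fun _ _ => rfl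

theorem Sb.neg (h : Sb Λ m a) : Sb Λ m fun s x => -a s x :=
  ((sb_time h.pos fun _ => -1).mul h).congr (fun s x => by simp) fun s x => by simp

theorem Sb.sum3 {f : Fin 3 → ℝ → E3 → ℝ} (h : ∀ i, Sb Λ m (f i)) :
    Sb Λ m fun s x => ∑ i, f i s x :=
  (((h 0).add (h 1)).add (h 2)).congr (fun _ _ => rfl) fun s x => by rw [Fin.sum_univ_three]

theorem Sb.pow (h : Sb Λ m a) (k : ℕ) : Sb Λ (fun s x => m s x ^ k) fun s x => a s x ^ k := by
  induction k with
  | zero => exact (sb_time h.pos fun _ => 1).congr (fun s x => by simp) fun s x => by simp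
  | succ k ih => exact (ih.mul h).congr (fun s x => by ring) fun s x => by ring

theorem Sb.inv (h : Sb Λ m a) (h0 : ∀ s x, 0 < a s x) (hm : ∀ s x, 0 < m s x) {c : ℝ} (hc : 0 < c)
    (hge : ∀ s, 0 ≤ s → ∀ x, c * m s x ≤ a s x) :
    Sb Λ (fun s x => (m s x)⁻¹) fun s x => (a s x)⁻¹ := by
  have hs : ∀ s, Sm fun x => (a s x)⁻¹ := fun s => sm_inv (h.sm s) fun x => (h0 s x).ne'
  have z : Sz (fun s x => (m s x)⁻¹) fun s x => (a s x)⁻¹ := by
    refine ⟨c⁻¹, by positivity, fun s hs x => ?_⟩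
    rw [abs_of_pos (inv_pos.2 (h0 s x)), ← mul_inv]
    exact inv_anti₀ (mul_pos hc (hm s x)) (hge s hs x)
  refine ⟨h.pos, hs, fun n => ?_⟩
  induction n with
  | zero => exact z
  | succ n ih =>
    refine ⟨z, fun i => ?_⟩
    have e : (fun s => Boltz.dX i fun x => (a s x)⁻¹) =
        fun s x => -Boltz.dX i (a s) x * ((a s x)⁻¹ * (a s x)⁻¹) := by
      funext s x
      rw [dX_comp (h.sm s).dif (hasDerivAt_inv (h0 s x).ne')]
      field_simp
    rw [e]
    refine (((h.dX i).neg.bd n).mul h.pos (h.dX i).neg.sm (fun s => (hs s).mul (hs s))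
      (ih.mul h.pos hs hs ih)).mono h.pos zero_le_one fun s _ x => le_of_eq ?_
    have := (hm s x).ne'
    field_simp

theorem sb_of_symBd (hΛ : ∀ s x, 0 < Λ s x) (ha : ∀ s, Sm (a s)) (hm : ∀ s x, 0 ≤ m s x)
    {σ : ℝ → E3 → ℝ} (hσ : ∀ s x, Λ s x ≤ σ s x) {K : ℕ → ℝ}
    (h : ∀ s, 0 ≤ s → SymBd K 0 (σ s) (m s) (a s)) : Sb Λ m a := by
  have z : ∀ w : List (Fin 3), Sz (fun s x => m s x / Λ s x ^ w.length) fun s => dXw w (a s) := by
    intro w
    refine ⟨|K w.length|, abs_nonneg _, fun s hs x => ?_⟩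
    have h1 := hΛ s x
    rw [← mul_div_assoc, le_div_iff₀ (by positivity), mul_comm]
    refine le_trans (mul_le_mul_of_nonneg_right (pow_le_pow_left₀ h1.le (hσ s x) _)
      (abs_nonneg _)) ((h s hs w (Nat.zero_le _) x).trans ?_)
    exact mul_le_mul_of_nonneg_right (le_abs_self _) (hm s x)
  have key : ∀ n (w : List (Fin 3)),
      SyN Λ n (fun s x => m s x / Λ s x ^ w.length) fun s => dXw w (a s) := by
    intro n
    induction n with
    | zero => exact z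
    | succ n ih =>
      refine fun w => ⟨z w, fun i => ?_⟩
      have := ih (w ++ [i])
      simp only [dXw_concat, List.length_append, List.length_singleton, pow_succ, ← div_div] at this
      exact this
  exact ⟨hΛ, ha, fun n => by simpa using key n []⟩

theorem SyN.word {n : ℕ} (h : SyN Λ n m a) : ∃ K : ℝ, 0 ≤ K ∧ ∀ s, 0 ≤ s →
    ∀ w : List (Fin 3), w.length = n → ∀ x, |dXw w (a s) x| ≤ K * (m s x / Λ s x ^ n) := by
  induction n generalizing m a with
  | zero =>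
    obtain ⟨K, h0, h⟩ := h
    refine ⟨K, h0, fun s hs w hw x => ?_⟩
    rw [List.length_eq_zero_iff.1 hw]
    simpa using h s hs x
  | succ n ih =>
    choose K h0 hK using fun i => ih (h.2 i)
    refine ⟨∑ i, K i, Finset.sum_nonneg fun i _ => h0 i, fun s hs w hw x => ?_⟩
    obtain _ | ⟨i, u⟩ := w
    · simp at hw
    have h1 := hK i s hs u (by simpa using hw) x
    rw [div_div, ← pow_succ'] at h1
    by_cases hp : 0 ≤ m s x / Λ s x ^ (n + 1)
    · exact h1.trans (mul_le_mul_of_nonneg_right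
        (Finset.single_le_sum (fun i _ => h0 i) (Finset.mem_univ i)) hp)
    · have hz : ∀ j, K j = 0 := fun j => by
        have h2 := hK j s hs u (by simpa using hw) x
        rw [div_div, ← pow_succ'] at h2
        by_contra t
        have := mul_neg_of_pos_of_neg (lt_of_le_of_ne (h0 j) (Ne.symm t)) (not_le.1 hp)
        linarith [abs_nonneg (dXw u (Boltz.dX j (a s)) x)]
      simpa [hz] using h1

theorem Sb.symBd (h : Sb Λ m a) {σ : ℝ → E3 → ℝ} (hσ0 : ∀ s x, 0 ≤ σ s x)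
    (hσ : ∀ s x, σ s x ≤ 2 * Λ s x) :
    ∃ K : ℕ → ℝ, (∀ n, 0 ≤ K n) ∧ ∀ s, 0 ≤ s → SymBd K 0 (σ s) (m s) (a s) := by
  choose K h0 hK using fun n => (h.bd n).word
  refine ⟨fun n => 2 ^ n * K n, fun n => by have := h0 n; positivity, fun s hs w _ x => ?_⟩
  have h1 := h.pos s x
  refine le_trans (mul_le_mul (pow_le_pow_left₀ (hσ0 s x) (hσ s x) _) (hK _ s hs w rfl x)
    (abs_nonneg _) (by positivity)) (le_of_eq ?_)
  rw [mul_pow]
  field_simp

theorem symBd_mono {K K' : ℕ → ℝ} {n0 n1 : ℕ} {σ m a : E3 → ℝ} (h : SymBd K n0 σ m a)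
    (hK : ∀ n, K n ≤ K' n) (hn : n0 ≤ n1) (hm : ∀ x, 0 ≤ m x) : SymBd K' n1 σ m a :=
  fun w hw x => (h w (hn.trans hw) x).trans (mul_le_mul_of_nonneg_right (hK _) (hm x))

end Pool.Agent.MP_187b32_an.Hyp
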