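import Pool.Agent.MP_187b32_an.Bg.Sym
import Pool.Agent.MP_187b32_an.Bg.Wt

/-! The weights and the rescaled profile functions as uniform symbols at the scale `Lam`. -/

set_option autoImplicit false

open Pool.Agent.Boltz Finset Filter Topology
open scoped ContDiff

noncomputable section

namespace Pool.Agent.MP_187b32_an

variable {T : Type*} {P : T → E3 → Prop} {σ m a : T → E3 → ℝ}

/-- A coordinate is a symbol of the size of the length scale where it is bounded by it. -/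
theorem Sy.coord (hσ : ∀ t x, P t x → 0 < σ t x) (j : Fin 3) {c : ℝ} (hc : 0 < c)
    (h : ∀ t x, P t x → |x j| ≤ c * σ t x) : Sy P σ σ fun _ x => x j := by
  refine Sy.of_dX (fun _ => cd_coord j) hc h fun i => ?_
  simp only [dX_coord]
  exact (Sy.const_one hσ _).congr_m fun t x hp => (div_self (hσ t x hp).ne').symm

theorem Sy.norm_sq (hσ : ∀ t x, P t x → 0 < σ t x) {c : ℝ} (hc : 0 < c)
    (h : ∀ t x, P t x → ‖x‖ ≤ c * σ t x) :
    Sy P σ (fun t x => σ t x ^ 2) fun _ x => ‖x‖ ^ 2 := by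
  have h1 := fun j => (Sy.coord hσ j hc fun t x hp => (abs_coord_le_nrm x j).trans (h t x hp)).pow 2
  exact (Sy.sum h1).congr fun _ x => (EuclideanSpace.real_norm_sq_eq x).symm

/-! ### Symbols on the whole space -/

namespace PS

variable {β γ : ℝ} {Φ Ψ : E3 → ℝ}

theorem cd (h : PS β Φ) : ContDiff ℝ ∞ Φ := Sy.cd h ()

theorem of_bd {K : ℕ → ℝ} (hc : ContDiff ℝ ∞ Φ)
    (h : ∀ (w : List (Fin 3)) y, |dXw w Φ y| ≤ K w.length * (1 + ‖y‖ ^ 2) ^ ((β - w.length) / 2)) :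
    PS β Φ := by
  refine ⟨fun _ => hc, fun _ y _ => jb_pos y, fun w => ⟨|K w.length| + 1, by positivity,
    fun _ y _ => ?_⟩⟩
  have h0 := jb_pos y
  have h1 := h w y
  rw [← jb_rpow, Real.rpow_sub h0, Real.rpow_natCast, ← mul_div_assoc,
    le_div_iff₀ (by positivity)] at h1
  have h2 : K w.length * jb y ^ β ≤ (|K w.length| + 1) * jb y ^ β :=
    mul_le_mul_of_nonneg_right (by linarith [le_abs_self (K w.length)]) (by positivity)
  linarith

theorem mul (h1 : PS β Φ) (h2 : PS γ Ψ) : PS (β + γ) fun y => Φ y * Ψ y :=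
  (Sy.mul h1 h2).congr_m fun _ y _ => (Real.rpow_add (jb_pos y) β γ).symm

theorem dX (h : PS β Φ) (i : Fin 3) : PS (β - 1) (dX i Φ) :=
  (Sy.dX h i).congr_m fun _ y _ => (Real.rpow_sub_one (jb_pos y).ne' β).symm

theorem add (h1 : PS β Φ) (h2 : PS β Ψ) : PS β fun y => Φ y + Ψ y := Sy.add h1 h2

theorem sub (h1 : PS β Φ) (h2 : PS β Ψ) : PS β fun y => Φ y - Ψ y := Sy.sub h1 h2

theorem neg (h : PS β Φ) : PS β fun y => -Φ y := Sy.neg h

theorem cmul (h : PS β Φ) (c : ℝ) : PS β fun y => c * Φ y := Sy.cmul h c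

theorem sum {f : Fin 3 → E3 → ℝ} (h : ∀ j, PS β (f j)) : PS β fun y => ∑ j, f j y :=
  Sy.sum (f := fun j _ => f j) h

theorem mono (h : PS β Φ) (hβ : β ≤ γ) : PS γ Φ :=
  Sy.mono_le h fun _ y _ => Real.rpow_le_rpow_of_exponent_le (one_le_jb y) hβ

theorem congr_ord (h : PS β Φ) (e : β = γ) : PS γ Φ := e ▸ h

theorem coord (j : Fin 3) : PS 1 fun y => y j :=
  (Sy.coord (fun _ y _ => jb_pos y) j one_pos fun _ y _ => by
    linarith [abs_coord_le_nrm y j, norm_le_jb y]).congr_m fun _ y _ => (Real.rpow_one _).symm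

/-- A smooth compactly supported function is a symbol of every order. -/
theorem of_compact (hc : ContDiff ℝ ∞ Φ) (hs : HasCompactSupport Φ) (β : ℝ) : PS β Φ := by
  refine ⟨fun _ => hc, fun _ y _ => jb_pos y, fun w => ?_⟩
  have hj : Continuous jb := by unfold jb; fun_prop
  have hcont : Continuous fun y => jb y ^ w.length * |dXw w Φ y| / jb y ^ β :=
    ((hj.pow _).mul (cd_dXw hc w).continuous.abs).div
      (hj.rpow_const fun y => Or.inl (jb_pos y).ne')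
      fun y => (Real.rpow_pos_of_pos (jb_pos y) β).ne'
  obtain ⟨C, hC⟩ := hs.isCompact.exists_bound_of_continuousOn hcont.continuousOn
  refine ⟨|C| + 1, by positivity, fun _ y _ => ?_⟩
  have h0 := Real.rpow_pos_of_pos (jb_pos y) β
  by_cases hy : y ∈ tsupport Φ
  · have h1 := (le_abs_self _).trans (hC y hy)
    rw [div_le_iff₀ h0] at h1
    exact h1.trans (mul_le_mul_of_nonneg_right (by linarith [le_abs_self C]) h0.le)
  · rw [dXw_congr_at (notMem_tsupport_iff_eventuallyEq.1 hy) w]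
    have : dXw w (0 : E3 → ℝ) y = 0 := congrFun (dXw_zero w) y
    rw [this, abs_zero, mul_zero]
    positivity

end PS

theorem Prof.ps_U (P : Prof) (j : Fin 3) : PS (1 - P.r) (P.U j) :=
  PS.of_bd (P.cd_U j) fun w y => P.bdU w j y

theorem Prof.ps_C (P : Prof) : PS (1 - P.r) P.C := PS.of_bd P.cd_C P.bdC

/-! ### The weights -/

namespace BgD

variable (B : BgD)

theorem sy_per {f : E3 → ℝ} (hf : ContDiff ℝ ∞ f) (pf : Per f) :
    Sy Pos B.Lam (fun _ _ => 1) fun _ => f :=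
  Sy.of_per hf pf 2 fun s x hs => ⟨B.Lam_pos s x, B.Lam_le_two hs x⟩

theorem sy_chi : Sy Pos B.Lam (fun _ _ => 1) fun _ => B.cut.chi :=
  B.sy_per B.cut.cd_chi B.cut.per_chi

theorem sy_rho2 : Sy Pos B.Lam (fun s x => B.Lam s x ^ 2) fun _ => B.cut.rho2 := by
  refine Sy.of_inn_out (p := fun s : ℝ => 0 ≤ s) ?_ ?_ B.per_Lam
    (fun s => (B.per_Lam s).map fun v => v ^ 2) fun _ => B.cut.per_rho2
  · exact (Sy.norm_sq (fun s x _ => B.Lam_pos s x) one_pos fun s x hp => by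
      simpa using B.norm_le_Lam s hp.2.to_box).congr_loc (fun _ => B.cut.cd_rho2)
      fun s x hp => B.cut.rho2_loc hp.2
  · refine ((B.sy_per B.cut.cd_rho2 B.cut.per_rho2).restrict fun s x hp => hp.1).mono
      (c := 196) (by norm_num) fun s x hp => ?_
    nlinarith [B.Lam_ge_out s hp.2.1 hp.2.2]

theorem sy_exp2 : Sy Pos B.Lam (fun s _ => Real.exp (-2 * s)) fun s _ => Real.exp (-2 * s) :=
  Sy.const_le (fun s x _ => B.Lam_pos s x) _ fun _ _ _ => (abs_of_pos (Real.exp_pos _)).le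

theorem sy_Lam : Sy Pos B.Lam B.Lam B.Lam := by
  have h1 : Sy Pos B.Lam (fun s x => Real.exp (-2 * s) + B.cut.rho2 x)
      fun s x => Real.exp (-2 * s) + B.cut.rho2 x :=
    (B.sy_exp2.mono_le fun s x _ => by linarith [B.cut.rho2_nonneg x]).add
      (B.sy_rho2.congr_m fun s x _ => B.Lam_sq s x)
  exact h1.sqrt_self B.Lam2_pos

theorem sy_Lam_rpow (p : ℝ) : Sy Pos B.Lam (fun s x => B.Lam s x ^ p) fun s x => B.Lam s x ^ p :=
  B.sy_Lam.rpow_self B.Lam_pos p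

theorem sy_mu : Sy Pos B.Lam B.mu B.mu :=
  (B.sy_Lam_rpow (-B.r)).tmul (fun s => Real.exp (-B.r * s)) fun _ => (Real.exp_pos _).le

theorem sy_om (a : ℝ) : Sy Pos B.Lam (B.om a) (B.om a) :=
  (B.sy_Lam_rpow (-3 - 2 * a)).tmul (fun s => Real.exp (-2 * a * s)) fun _ => (Real.exp_pos _).le

/-- The weights `om a`, uniformly in `a ∈ [0, 1/4]`; the parameter is `(a, s)`. -/
theorem sy_om_unif : Sy (fun (q : ℝ × ℝ) _ => (0 ≤ q.1 ∧ q.1 ≤ 1 / 4) ∧ 0 ≤ q.2)
    (fun q => B.Lam q.2) (fun q => B.om q.1 q.2) fun q => B.om q.1 q.2 := by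
  have h1 := ((B.sy_Lam.reparam (Prod.snd : ℝ × ℝ → ℝ)).restrict
    (Q := fun (q : ℝ × ℝ) _ => (0 ≤ q.1 ∧ q.1 ≤ 1 / 4) ∧ 0 ≤ q.2) fun q _ hq => hq.2).rpow_self'
    (fun q x => B.Lam_pos q.2 x) (fun q => -3 - 2 * q.1) 4 fun q _ hq => by
      rw [abs_le]; constructor <;> linarith [hq.1.1, hq.1.2]
  exact h1.tmul (fun q => Real.exp (-2 * q.1 * q.2)) fun _ => (Real.exp_pos _).le

theorem sy_SS (h0 : 0 ≤ B.nu) (h1 : B.nu ≤ 1) : Sy Pos B.Lam B.SS B.SS := by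
  have h2 : Sy Pos B.Lam (fun s x => Real.exp (-2 * s) + B.nu ^ 2 * B.cut.rho2 x)
      fun s x => Real.exp (-2 * s) + B.nu ^ 2 * B.cut.rho2 x :=
    (B.sy_exp2.mono_le fun s x _ => by
      linarith [mul_nonneg (sq_nonneg B.nu) (B.cut.rho2_nonneg x)]).add
      ((B.sy_rho2.tmul (fun _ => B.nu ^ 2) fun _ => sq_nonneg _).mono_le fun s x _ => by
        rw [← SS_sq, ← mul_pow]
        exact pow_le_pow_left₀ (mul_nonneg h0 (B.Lam_pos s x).le) (B.nu_Lam_le_SS h0 h1 s x) 2)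
  exact h2.sqrt_self B.SS2_pos

theorem sy_sig (h0 : 0 ≤ B.nu) (h1 : B.nu ≤ 1) : Sy Pos B.Lam B.sig B.sig :=
  (Sy.const_le (fun s x _ => B.Lam_pos s x) (fun s => Real.exp (-s)) fun s x _ => by
    rw [abs_of_pos (Real.exp_pos _)]
    exact (B.exp_neg_le_SS s x).trans (B.SS_le_sig s x)).add
    ((B.sy_SS h0 h1).mono_le fun s x _ => B.SS_le_sig s x)

/-- From the scale `Lam` to the scale `sig`. -/
theorem to_sig {P : ℝ → E3 → Prop} {m a : ℝ → E3 → ℝ} (h0 : 0 ≤ B.nu) (h1 : B.nu ≤ 1)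
    (h : Sy P B.Lam m a) : Sy P B.sig m a :=
  h.scale two_pos fun s x _ => ⟨B.sig_pos s x, B.sig_le h0 h1 s x⟩

/-- From the scale `sig` to the scale `Lam` (the constants depend on `nu`). -/
theorem to_Lam {P : ℝ → E3 → Prop} {m a : ℝ → E3 → ℝ} (h0 : 0 < B.nu) (h1 : B.nu ≤ 1)
    (h : Sy P B.sig m a) : Sy P B.Lam m a :=
  h.scale (inv_pos.2 h0) fun s x _ => ⟨B.Lam_pos s x, by
    rw [inv_mul_eq_div, le_div_iff₀ h0, mul_comm]
    exact B.nu_Lam_le_sig h0.le h1 s x⟩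

/-- One is a size below every nonpositive power of `Lam`. -/
theorem one_le_Lam_rpow {p : ℝ} (hp : p ≤ 0) {s : ℝ} (hs : 0 ≤ s) (x : E3) :
    1 ≤ 2 ^ (-p) * B.Lam s x ^ p := by
  have h1 : (2 : ℝ) ^ p ≤ B.Lam s x ^ p :=
    Real.rpow_le_rpow_of_nonpos (B.Lam_pos s x) (B.Lam_le_two hs x) hp
  have h2 : (2 : ℝ) ^ (-p) * 2 ^ p = 1 := by rw [← Real.rpow_add two_pos]; simp
  rw [← h2]
  exact mul_le_mul_of_nonneg_left h1 (by positivity)

end BgD

/-! ### Rescaled functions -/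

namespace Cut

variable (cut : Cut)

theorem cd_comp {Φ : E3 → ℝ} (h : ContDiff ℝ ∞ Φ) : CD fun s x => Φ (Real.exp s • cut.pi x) :=
  h.comp ((Real.contDiff_exp.comp contDiff_fst).smul (cut.cd_pi.comp contDiff_snd))

theorem cd_resc (c : ℝ) {Φ : E3 → ℝ} (h : ContDiff ℝ ∞ Φ) : CD (cut.resc c Φ) :=
  (CD.of_space cut.cd_chi).mul ((CD.exp_mul c).mul (cut.cd_comp h))

theorem per_resc (c : ℝ) (Φ : E3 → ℝ) (s : ℝ) : Per (cut.resc c Φ s) := fun i x => by
  simp only [resc, cut.per_chi i x, cut.per_pi i x]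

theorem resc_loc (c : ℝ) (Φ : E3 → ℝ) (s : ℝ) {x : E3} (h : inn x) :
    cut.resc c Φ s =ᶠ[𝓝 x] fun y => cut.chi y * (Real.exp (c * s) * Φ (Real.exp s • y)) :=
  (cut.pi_loc h).mono fun y hy => by simp only [resc, hy]

theorem resc_loc_zero (c : ℝ) (Φ : E3 → ℝ) (s : ℝ) {x : E3} (h : box (1 / 2) x) (hi : ¬inn x) :
    cut.resc c Φ s =ᶠ[𝓝 x] fun _ => 0 :=
  (cut.chi_loc_zero h hi).mono fun y hy => by simp only [resc, hy, zero_mul]

theorem resc_eq (c : ℝ) (Φ : E3 → ℝ) (s : ℝ) {x : E3} (h : box (1 / 8) x) :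
    cut.resc c Φ s x = Real.exp (c * s) * Φ (Real.exp s • x) := by
  rw [resc, cut.chi_one x h, cut.pi_eq x (h.mono (by norm_num)), one_mul]

theorem dS_resc (c : ℝ) {Φ : E3 → ℝ} (h : ContDiff ℝ ∞ Φ) (s : ℝ) (x : E3) :
    dS (cut.resc c Φ) s x = cut.resc c (fun y => c * Φ y + ∑ i, y i * dX i Φ y) s x := by
  have h1 : HasDerivAt (fun t => Real.exp t • cut.pi x) (Real.exp s • cut.pi x) s :=
    (Real.hasDerivAt_exp s).smul_const _
  have h2 := (cd_diff h (Real.exp s • cut.pi x)).hasFDerivAt.comp_hasDerivAt s h1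
  have h3 := ((BgD.hasDerivAt_exp_mul c s).mul h2).const_mul (cut.chi x)
  refine (dS_eq (a := cut.resc c Φ) h3).trans ?_
  rw [fderiv_eq_sum_dX (cd_diff h _)]
  simp only [resc, Function.comp, smul_eq_mul]
  ring

end Cut

/-- A symbol of order `β` in `y = exp(s) x` is a symbol of size `(exp(s) Lam) ^ β` in the inner box. -/
theorem BgD.sy_scale (B : BgD) {β : ℝ} {Φ : E3 → ℝ} (h : PS β Φ) :
    Sy (fun _ x => inn x) B.Lam (fun s x => (Real.exp s * B.Lam s x) ^ β)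
      fun s x => Φ (Real.exp s • x) := by
  refine ⟨fun s => h.cd.comp (contDiff_const_smul _), fun s x _ => B.Lam_pos s x, fun w => ?_⟩
  obtain ⟨K, hK, H⟩ := Sy.bd h w
  refine ⟨K, hK, fun s x hx => ?_⟩
  have h1 := H () (Real.exp s • x) trivial
  rw [← B.exp_mul_Lam s hx.to_box, mul_pow] at h1
  rw [congrFun (dXw_comp_smul (sm_of_cd h.cd) (Real.exp s) w) x, smul_eq_mul, abs_mul,
    abs_of_pos (pow_pos (Real.exp_pos s) _)]
  linarith

/-- The cut-off rescaled copy of a symbol of order `β`. -/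
theorem BgD.sy_resc (B : BgD) (c : ℝ) {β : ℝ} {Φ : E3 → ℝ} (h : PS β Φ) :
    Sy Pos B.Lam (fun s x => Real.exp ((c + β) * s) * B.Lam s x ^ β) (B.cut.resc c Φ) := by
  have hcd := fun s => (B.cut.cd_resc c h.cd).slice s
  refine Sy.of_inn_out (p := fun s : ℝ => 0 ≤ s) ?_ ?_ B.per_Lam
    (fun s => (B.per_Lam s).map fun v => Real.exp ((c + β) * s) * v ^ β) (B.cut.per_resc c Φ)
  · have h1 := (B.sy_chi.restrict (Q := fun s x => 0 ≤ s ∧ inn x) fun s x hp => hp.1).one_mul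
      (((B.sy_scale h).restrict (Q := fun s x => 0 ≤ s ∧ inn x) fun s x hp => hp.2).tmul
        (fun s => Real.exp (c * s)) fun _ => (Real.exp_pos _).le)
    refine (h1.congr_loc hcd fun s x hp => B.cut.resc_loc c Φ s hp.2).congr_m fun s x _ => ?_
    rw [B.vp_rpow, ← mul_assoc, ← Real.exp_add, add_mul]
  · refine (Sy.zero (fun s x _ => B.Lam_pos s x) fun s x _ => ?_).congr_loc hcd
      fun s x hp => B.cut.resc_loc_zero c Φ s hp.2.1 hp.2.2
    exact (mul_pos (Real.exp_pos _) (Real.rpow_pos_of_pos (B.Lam_pos s x) _)).le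

end Pool.Agent.MP_187b32_an
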